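import Mathlib

namespace Pool.Agent.Results.MP_52e257_al.ColourExample

/-- Two-sided ideals of a nonassociative algebra, as subspaces. -/
def IsIdeal (F : Type) {A : Type} [Field F] [NonUnitalNonAssocRing A] [Module F A]
    (I : Submodule F A) : Prop :=
  ∀ a x : A, x ∈ I → a * x ∈ I ∧ x * a ∈ I

/-- Simple: `A² ≠ 0` and the only two-sided ideals are `0` and `A`. -/
def IsSimpleAlg (F A : Type) [Field F] [NonUnitalNonAssocRing A] [Module F A] : Prop :=
  (∃ a b : A, a * b ≠ 0) ∧ ∀ I : Submodule F A, IsIdeal F I → I = ⊥ ∨ I = ⊤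

/-- Noncommutative Jordan: flexible, and `(x²,y,x) = 0`. -/
def IsNCJordan (A : Type) [NonUnitalNonAssocRing A] : Prop :=
  (∀ x y : A, (x * y) * x = x * (y * x)) ∧
  (∀ x y : A, ((x * x) * y) * x = (x * x) * (y * x))

/-- Alternative. -/
def IsAlternativeAlg (A : Type) [NonUnitalNonAssocRing A] : Prop :=
  (∀ x y : A, (x * x) * y = x * (x * y)) ∧ (∀ x y : A, (y * x) * x = y * (x * x))

/-- Jordan: commutative, and `(x²,y,x) = 0`. -/
def IsJordanAlg (A : Type) [NonUnitalNonAssocRing A] : Prop :=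
  (∀ x y : A, x * y = y * x) ∧
  (∀ x y : A, ((x * x) * y) * x = (x * x) * (y * x))

/-- The identity `([x,y],y,y) = 0`. -/
def CommIdentity (A : Type) [NonUnitalNonAssocRing A] : Prop :=
  ∀ x y : A, ((x * y - y * x) * y) * y = (x * y - y * x) * (y * y)

/-- Underlying space `K ⊕ K³ ⊕ K³` of the rescaled colour algebra. -/
structure Col (K : Type) where
  a : K
  u1 : K
  u2 : K
  u3 : K
  v1 : K
  v2 : K
  v3 : K

namespace Col

variable {K : Type} [Field K]

omit [Field K] in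
@[ext] theorem ext' {x y : Col K} (h : x.a = y.a) (h1 : x.u1 = y.u1) (h2 : x.u2 = y.u2)
    (h3 : x.u3 = y.u3) (h4 : x.v1 = y.v1) (h5 : x.v2 = y.v2) (h6 : x.v3 = y.v3) : x = y := by
  cases x; cases y; simp_all

instance : Zero (Col K) := ⟨⟨0, 0, 0, 0, 0, 0, 0⟩⟩
instance : Add (Col K) := ⟨fun x y => ⟨x.a + y.a, x.u1 + y.u1, x.u2 + y.u2, x.u3 + y.u3,
  x.v1 + y.v1, x.v2 + y.v2, x.v3 + y.v3⟩⟩
instance : Neg (Col K) := ⟨fun x => ⟨-x.a, -x.u1, -x.u2, -x.u3, -x.v1, -x.v2, -x.v3⟩⟩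
/-- `(a,u,v)(b,x,y) = (ab - (u·y + v·x)/2, ax + bu + v×y, ay + bv + u×x)`. -/
instance : Mul (Col K) := ⟨fun x y =>
  ⟨x.a * y.a - (x.u1 * y.v1 + x.u2 * y.v2 + x.u3 * y.v3
      + x.v1 * y.u1 + x.v2 * y.u2 + x.v3 * y.u3) / 2,
   x.a * y.u1 + x.u1 * y.a + (x.v2 * y.v3 - x.v3 * y.v2),
   x.a * y.u2 + x.u2 * y.a + (x.v3 * y.v1 - x.v1 * y.v3),
   x.a * y.u3 + x.u3 * y.a + (x.v1 * y.v2 - x.v2 * y.v1),
   x.a * y.v1 + x.v1 * y.a + (x.u2 * y.u3 - x.u3 * y.u2),
   x.a * y.v2 + x.v2 * y.a + (x.u3 * y.u1 - x.u1 * y.u3),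
   x.a * y.v3 + x.v3 * y.a + (x.u1 * y.u2 - x.u2 * y.u1)⟩⟩

@[simp] theorem zero_a : (0 : Col K).a = 0 := rfl
@[simp] theorem zero_u1 : (0 : Col K).u1 = 0 := rfl
@[simp] theorem zero_u2 : (0 : Col K).u2 = 0 := rfl
@[simp] theorem zero_u3 : (0 : Col K).u3 = 0 := rfl
@[simp] theorem zero_v1 : (0 : Col K).v1 = 0 := rfl
@[simp] theorem zero_v2 : (0 : Col K).v2 = 0 := rfl
@[simp] theorem zero_v3 : (0 : Col K).v3 = 0 := rfl
@[simp] theorem add_a (x y : Col K) : (x + y).a = x.a + y.a := rfl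
@[simp] theorem add_u1 (x y : Col K) : (x + y).u1 = x.u1 + y.u1 := rfl
@[simp] theorem add_u2 (x y : Col K) : (x + y).u2 = x.u2 + y.u2 := rfl
@[simp] theorem add_u3 (x y : Col K) : (x + y).u3 = x.u3 + y.u3 := rfl
@[simp] theorem add_v1 (x y : Col K) : (x + y).v1 = x.v1 + y.v1 := rfl
@[simp] theorem add_v2 (x y : Col K) : (x + y).v2 = x.v2 + y.v2 := rfl
@[simp] theorem add_v3 (x y : Col K) : (x + y).v3 = x.v3 + y.v3 := rfl
@[simp] theorem neg_a (x : Col K) : (-x).a = -x.a := rfl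
@[simp] theorem neg_u1 (x : Col K) : (-x).u1 = -x.u1 := rfl
@[simp] theorem neg_u2 (x : Col K) : (-x).u2 = -x.u2 := rfl
@[simp] theorem neg_u3 (x : Col K) : (-x).u3 = -x.u3 := rfl
@[simp] theorem neg_v1 (x : Col K) : (-x).v1 = -x.v1 := rfl
@[simp] theorem neg_v2 (x : Col K) : (-x).v2 = -x.v2 := rfl
@[simp] theorem neg_v3 (x : Col K) : (-x).v3 = -x.v3 := rfl

theorem mul_a (x y : Col K) : (x * y).a = x.a * y.a - (x.u1 * y.v1 + x.u2 * y.v2 + x.u3 * y.v3
      + x.v1 * y.u1 + x.v2 * y.u2 + x.v3 * y.u3) / 2 := rfl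
theorem mul_u1 (x y : Col K) :
  (x * y).u1 = x.a * y.u1 + x.u1 * y.a + (x.v2 * y.v3 - x.v3 * y.v2) := rfl
theorem mul_u2 (x y : Col K) :
  (x * y).u2 = x.a * y.u2 + x.u2 * y.a + (x.v3 * y.v1 - x.v1 * y.v3) := rfl
theorem mul_u3 (x y : Col K) :
  (x * y).u3 = x.a * y.u3 + x.u3 * y.a + (x.v1 * y.v2 - x.v2 * y.v1) := rfl
theorem mul_v1 (x y : Col K) :
  (x * y).v1 = x.a * y.v1 + x.v1 * y.a + (x.u2 * y.u3 - x.u3 * y.u2) := rfl
theorem mul_v2 (x y : Col K) :
  (x * y).v2 = x.a * y.v2 + x.v2 * y.a + (x.u3 * y.u1 - x.u1 * y.u3) := rfl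
theorem mul_v3 (x y : Col K) :
  (x * y).v3 = x.a * y.v3 + x.v3 * y.a + (x.u1 * y.u2 - x.u2 * y.u1) := rfl

instance : AddCommGroup (Col K) where
  add_assoc x y z := by ext <;> simp [add_assoc]
  zero_add x := by ext <;> simp
  add_zero x := by ext <;> simp
  nsmul := nsmulRec
  zsmul := zsmulRec
  neg_add_cancel x := by ext <;> simp
  add_comm x y := by ext <;> simp [add_comm]

instance : NonUnitalNonAssocRing (Col K) where
  left_distrib x y z := by
    ext <;> simp only [mul_a, mul_u1, mul_u2, mul_u3, mul_v1, mul_v2, mul_v3, add_a, add_u1,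
      add_u2, add_u3, add_v1, add_v2, add_v3] <;> ring
  right_distrib x y z := by
    ext <;> simp only [mul_a, mul_u1, mul_u2, mul_u3, mul_v1, mul_v2, mul_v3, add_a, add_u1,
      add_u2, add_u3, add_v1, add_v2, add_v3] <;> ring
  zero_mul x := by
    ext <;> simp [mul_a, mul_u1, mul_u2, mul_u3, mul_v1, mul_v2, mul_v3]
  mul_zero x := by
    ext <;> simp [mul_a, mul_u1, mul_u2, mul_u3, mul_v1, mul_v2, mul_v3]

@[simp] theorem sub_a (x y : Col K) : (x - y).a = x.a - y.a := by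
  rw [sub_eq_add_neg, add_a, neg_a, sub_eq_add_neg]
@[simp] theorem sub_u1 (x y : Col K) : (x - y).u1 = x.u1 - y.u1 := by
  rw [sub_eq_add_neg, add_u1, neg_u1, sub_eq_add_neg]
@[simp] theorem sub_u2 (x y : Col K) : (x - y).u2 = x.u2 - y.u2 := by
  rw [sub_eq_add_neg, add_u2, neg_u2, sub_eq_add_neg]
@[simp] theorem sub_u3 (x y : Col K) : (x - y).u3 = x.u3 - y.u3 := by
  rw [sub_eq_add_neg, add_u3, neg_u3, sub_eq_add_neg]
@[simp] theorem sub_v1 (x y : Col K) : (x - y).v1 = x.v1 - y.v1 := by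
  rw [sub_eq_add_neg, add_v1, neg_v1, sub_eq_add_neg]
@[simp] theorem sub_v2 (x y : Col K) : (x - y).v2 = x.v2 - y.v2 := by
  rw [sub_eq_add_neg, add_v2, neg_v2, sub_eq_add_neg]
@[simp] theorem sub_v3 (x y : Col K) : (x - y).v3 = x.v3 - y.v3 := by
  rw [sub_eq_add_neg, add_v3, neg_v3, sub_eq_add_neg]

theorem flexible (x y : Col K) : (x * y) * x = x * (y * x) := by
  ext <;> simp only [mul_a, mul_u1, mul_u2, mul_u3, mul_v1, mul_v2, mul_v3] <;> ring

theorem jordan (x y : Col K) : ((x * x) * y) * x = (x * x) * (y * x) := by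
  ext <;> simp only [mul_a, mul_u1, mul_u2, mul_u3, mul_v1, mul_v2, mul_v3] <;> ring

theorem commIdentity (h2 : (2 : K) ≠ 0) (x y : Col K) :
    ((x * y - y * x) * y) * y = (x * y - y * x) * (y * y) := by
  have hh : (2 : K) * 2⁻¹ = 1 := mul_inv_cancel₀ h2
  ext <;> simp only [mul_a, mul_u1, mul_u2, mul_u3, mul_v1, mul_v2, mul_v3, sub_a, sub_u1,
      sub_u2, sub_u3, sub_v1, sub_v2, sub_v3, div_eq_mul_inv]
  · ring
  · linear_combination (y.u1 * y.v1 + y.u2 * y.v2 + y.u3 * y.v3) *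
      (2 * (x.v2 * y.v3 - x.v3 * y.v2)) * hh
  · linear_combination (y.u1 * y.v1 + y.u2 * y.v2 + y.u3 * y.v3) *
      (2 * (x.v3 * y.v1 - x.v1 * y.v3)) * hh
  · linear_combination (y.u1 * y.v1 + y.u2 * y.v2 + y.u3 * y.v3) *
      (2 * (x.v1 * y.v2 - x.v2 * y.v1)) * hh
  · linear_combination (y.u1 * y.v1 + y.u2 * y.v2 + y.u3 * y.v3) *
      (2 * (x.u2 * y.u3 - x.u3 * y.u2)) * hh
  · linear_combination (y.u1 * y.v1 + y.u2 * y.v2 + y.u3 * y.v3) *
      (2 * (x.u3 * y.u1 - x.u1 * y.u3)) * hh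
  · linear_combination (y.u1 * y.v1 + y.u2 * y.v2 + y.u3 * y.v3) *
      (2 * (x.u1 * y.u2 - x.u2 * y.u1)) * hh

/-- The pure element with given coordinates. -/
def mk' (a u1 u2 u3 v1 v2 v3 : K) : Col K := ⟨a, u1, u2, u3, v1, v2, v3⟩

/-- The unit element. -/
def e : Col K := ⟨1, 0, 0, 0, 0, 0, 0⟩

theorem e_mul (x : Col K) : e * x = x := by
  ext <;> simp [e, mul_a, mul_u1, mul_u2, mul_u3, mul_v1, mul_v2, mul_v3]

section Mod

variable {F : Type} [Field F] [Algebra F K]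

instance instSMulCol : SMul F (Col K) := ⟨fun r x => ⟨r • x.a, r • x.u1, r • x.u2, r • x.u3,
  r • x.v1, r • x.v2, r • x.v3⟩⟩

@[simp] theorem smul_a (r : F) (x : Col K) : (r • x).a = r • x.a := rfl
@[simp] theorem smul_u1 (r : F) (x : Col K) : (r • x).u1 = r • x.u1 := rfl
@[simp] theorem smul_u2 (r : F) (x : Col K) : (r • x).u2 = r • x.u2 := rfl
@[simp] theorem smul_u3 (r : F) (x : Col K) : (r • x).u3 = r • x.u3 := rfl
@[simp] theorem smul_v1 (r : F) (x : Col K) : (r • x).v1 = r • x.v1 := rfl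
@[simp] theorem smul_v2 (r : F) (x : Col K) : (r • x).v2 = r • x.v2 := rfl
@[simp] theorem smul_v3 (r : F) (x : Col K) : (r • x).v3 = r • x.v3 := rfl

instance instModuleCol : Module F (Col K) where
  one_smul x := by ext <;> simp
  mul_smul r s x := by ext <;> simp [mul_smul]
  smul_zero r := by ext <;> simp
  smul_add r x y := by ext <;> simp
  add_smul r s x := by ext <;> simp [add_smul]
  zero_smul x := by ext <;> simp

theorem smul_mul_col (r : F) (x y : Col K) : (r • x) * y = r • (x * y) := by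
  ext <;> simp only [mul_a, mul_u1, mul_u2, mul_u3, mul_v1, mul_v2, mul_v3, smul_a, smul_u1,
      smul_u2, smul_u3, smul_v1, smul_v2, smul_v3, Algebra.smul_def] <;> ring

theorem mul_smul_col (r : F) (x y : Col K) : x * (r • y) = r • (x * y) := by
  ext <;> simp only [mul_a, mul_u1, mul_u2, mul_u3, mul_v1, mul_v2, mul_v3, smul_a, smul_u1,
      smul_u2, smul_u3, smul_v1, smul_v2, smul_v3, Algebra.smul_def] <;> ring

/-- Projection to the scalar part. -/
def proj : Col K →ₗ[F] K where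
  toFun x := x.a
  map_add' _ _ := rfl
  map_smul' _ _ := rfl

theorem not_finite (h : ¬ Module.Finite F K) : ¬ Module.Finite F (Col K) := by
  intro hf
  apply h
  refine Module.Finite.of_surjective (proj (F := F) (K := K)) ?_
  intro k
  exact ⟨⟨k, 0, 0, 0, 0, 0, 0⟩, rfl⟩

end Mod

end Col

open Col

/-- An ideal containing an element with nonzero scalar multiple of the unit is everything. -/
theorem top_of_scalar {F K : Type} [Field F] [Field K] [Algebra F K] (I : Submodule F (Col K))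
    (hI : IsIdeal F I) (k : K) (hk : k ≠ 0) (h : (⟨k, 0, 0, 0, 0, 0, 0⟩ : Col K) ∈ I) :
    I = ⊤ := by
  rw [eq_top_iff]
  intro x _
  have h1 := (hI (⟨k⁻¹, 0, 0, 0, 0, 0, 0⟩ : Col K) _ h).1
  have h2 : (⟨k⁻¹, 0, 0, 0, 0, 0, 0⟩ : Col K) * ⟨k, 0, 0, 0, 0, 0, 0⟩ = e := by
    ext <;> simp [e, mul_a, mul_u1, mul_u2, mul_u3, mul_v1, mul_v2, mul_v3, hk]
  rw [h2] at h1
  have h3 := (hI x _ h1).2
  rwa [e_mul] at h3

/-- The symmetrised product of an element with `y` in an ideal. -/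
theorem sym_mem {F K : Type} [Field F] [Field K] [Algebra F K] (I : Submodule F (Col K))
    (hI : IsIdeal F I) (x y : Col K) (hx : x ∈ I) : x * y + y * x ∈ I :=
  I.add_mem (hI y x hx).2 (hI y x hx).1

theorem pure_case {F K : Type} [Field F] [Field K] [Algebra F K] (h2 : (2 : K) ≠ 0)
    (I : Submodule F (Col K)) (hI : IsIdeal F I) (x : Col K) (hx : x ∈ I) (ha : x.a = 0)
    (h0 : x ≠ 0) : I = ⊤ := by
  have hh : (2 : K) * 2⁻¹ = 1 := mul_inv_cancel₀ h2
  have key : ∀ y : Col K, y.a = 0 → (⟨-(x.u1 * y.v1 + x.u2 * y.v2 + x.u3 * y.v3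
      + x.v1 * y.u1 + x.v2 * y.u2 + x.v3 * y.u3), 0, 0, 0, 0, 0, 0⟩ : Col K) ∈ I := by
    intro y hy
    have := sym_mem I hI x y hx
    convert this using 1
    ext <;> simp only [mul_a, mul_u1, mul_u2, mul_u3, mul_v1, mul_v2, mul_v3, add_a, add_u1,
      add_u2, add_u3, add_v1, add_v2, add_v3, ha, hy, div_eq_mul_inv]
    · linear_combination (x.u1 * y.v1 + x.u2 * y.v2 + x.u3 * y.v3
        + x.v1 * y.u1 + x.v2 * y.u2 + x.v3 * y.u3) * hh
    all_goals ring
  have fin : ∀ k : K, k ≠ 0 → (⟨-k, 0, 0, 0, 0, 0, 0⟩ : Col K) ∈ I → I = ⊤ := by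
    intro k hk h
    exact top_of_scalar I hI (-k) (neg_ne_zero.mpr hk) h
  by_contra hne
  apply h0
  have z1 : x.u1 = 0 := by
    by_contra h; exact hne (fin _ h (by simpa using key ⟨0, 0, 0, 0, 1, 0, 0⟩ rfl))
  have z2 : x.u2 = 0 := by
    by_contra h; exact hne (fin _ h (by simpa using key ⟨0, 0, 0, 0, 0, 1, 0⟩ rfl))
  have z3 : x.u3 = 0 := by
    by_contra h; exact hne (fin _ h (by simpa using key ⟨0, 0, 0, 0, 0, 0, 1⟩ rfl))
  have z4 : x.v1 = 0 := by
    by_contra h; exact hne (fin _ h (by simpa using key ⟨0, 1, 0, 0, 0, 0, 0⟩ rfl))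
  have z5 : x.v2 = 0 := by
    by_contra h; exact hne (fin _ h (by simpa using key ⟨0, 0, 1, 0, 0, 0, 0⟩ rfl))
  have z6 : x.v3 = 0 := by
    by_contra h; exact hne (fin _ h (by simpa using key ⟨0, 0, 0, 1, 0, 0, 0⟩ rfl))
  ext <;> simp_all

theorem simple {F K : Type} [Field F] [Field K] [Algebra F K] (h2 : (2 : K) ≠ 0) :
    IsSimpleAlg F (Col K) := by
  have hh : (2 : K) * 2⁻¹ = 1 := mul_inv_cancel₀ h2
  refine ⟨⟨e, e, ?_⟩, ?_⟩
  · rw [e_mul]
    intro h
    have := congrArg Col.a h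
    simp [e] at this
  · intro I hI
    by_cases hbot : I = ⊥
    · exact Or.inl hbot
    · right
      obtain ⟨x, hx, h0⟩ := (Submodule.ne_bot_iff I).mp hbot
      by_cases ha : x.a = 0
      · exact pure_case h2 I hI x hx ha h0
      · -- multiply symmetrically by a unit vector, then take a commutator
        let y : Col K := ⟨0, 1, 0, 0, 0, 0, 0⟩
        let z : Col K := ⟨0, 0, 1, 0, 0, 0, 0⟩
        have m1 : x * y + y * x ∈ I := sym_mem I hI x y hx
        have m2 := hI z _ m1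
        have m3 : (x * y + y * x) * z - z * (x * y + y * x) ∈ I := I.sub_mem m2.2 m2.1
        refine pure_case h2 I hI _ m3 ?_ ?_
        · simp only [mul_a, mul_u1, mul_u2, mul_u3, mul_v1, mul_v2, mul_v3, add_a, add_u1,
            add_u2, add_u3, add_v1, add_v2, add_v3, sub_a, y, z]
          ring
        · intro h
          have h3 := congrArg Col.v3 h
          have h4 : ((x * y + y * x) * z - z * (x * y + y * x)).v3 = 2 * (2 * x.a) := by
            simp only [mul_a, mul_u1, mul_u2, mul_u3, mul_v1, mul_v2, mul_v3, add_a, add_u1,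
              add_u2, add_u3, add_v1, add_v2, add_v3, sub_v3, y, z]
            ring
          rw [h4] at h3
          simp [h2, ha] at h3

theorem not_alternative {K : Type} [Field K] (h2 : (2 : K) ≠ 0) :
    ¬ IsAlternativeAlg (Col K) := by
  intro h
  have h1 := h.1 (⟨0, 1, 0, 0, 0, 0, 0⟩ : Col K) ⟨0, 0, 0, 0, 1, 0, 0⟩
  have h3 := congrArg Col.u1 h1
  simp only [mul_a, mul_u1, mul_u2, mul_u3, mul_v1, mul_v2, mul_v3] at h3
  simp [h2] at h3

theorem not_jordan {K : Type} [Field K] (h2 : (2 : K) ≠ 0) : ¬ IsJordanAlg (Col K) := by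
  intro h
  have h1 := h.1 (⟨0, 1, 0, 0, 0, 0, 0⟩ : Col K) ⟨0, 0, 1, 0, 0, 0, 0⟩
  have h3 := congrArg Col.v3 h1
  simp only [mul_v3] at h3
  simp only [mul_one, mul_zero, zero_mul, one_mul, add_zero, zero_add, sub_zero, zero_sub] at h3
  apply h2
  linear_combination h3

/-- For every field `F` of characteristic not two there is a simple infinite-dimensional
noncommutative Jordan `F`-algebra satisfying `([x,y],y,y) = 0` that is neither alternative nor
Jordan. -/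
theorem result (F : Type) [Field F] (h2 : (2 : F) ≠ 0) :
    ∃ (A : Type) (_ : NonUnitalNonAssocRing A) (_ : Module F A),
      IsScalarTower F A A ∧ SMulCommClass F A A ∧
      IsSimpleAlg F A ∧ IsNCJordan A ∧ CommIdentity A ∧
      ¬ IsAlternativeAlg A ∧ ¬ IsJordanAlg A ∧ ¬ Module.Finite F A := by
  have h2' : (2 : RatFunc F) ≠ 0 := by
    intro h
    apply h2
    have h3 : algebraMap F (RatFunc F) 2 = 0 := by rw [map_ofNat]; exact h
    exact (map_eq_zero _).mp h3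
  refine ⟨Col (RatFunc F), inferInstance, Col.instModuleCol, ⟨?_⟩, ⟨?_⟩, simple h2',
    ⟨Col.flexible, Col.jordan⟩, Col.commIdentity h2', not_alternative h2', not_jordan h2',
    Col.not_finite ?_⟩
  · intro r x y
    exact Col.smul_mul_col r x y
  · intro r x y
    exact (Col.mul_smul_col r x y).symm
  · intro hf
    have ha : Algebra.IsAlgebraic F (RatFunc F) := Algebra.IsAlgebraic.of_finite F (RatFunc F)
    exact RatFunc.transcendental_X (ha.isAlgebraic RatFunc.X)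

end Pool.Agent.Results.MP_52e257_al.ColourExample
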