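import Pool.Agent.LibQuad46.Quad

/-!
# Quadratic algebras with the identity `([x, y], y, y) = 0`

A simple unital noncommutative Jordan algebra over a field `F` of characteristic not `2` in which
every element satisfies a quadratic equation over `F` and which satisfies `([x, y], y, y) = 0`
is alternative, or a Jordan algebra, or has dimension `7`.  There is no bound on the dimension
of `A` in the hypotheses.
-/

namespace Pool.Agent.Results.MP_52e257_al.QuadraticCase

open Quad46

universe u v

theorem result {F : Type u} {A : Type v} [Field F] [NonAssocRing A] [Module F A]
    [IsScalarTower F A A] [SMulCommClass F A A] (h2 : (2 : F) ≠ 0)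
    (hq : IsQuadratic F A) (hs : IsSimpleAlg F A) (hn : IsNCJordan A) (hc : CommIdentity A) :
    IsAlternativeAlg A ∨ IsJordanAlg A ∨ Module.finrank F A = 7 :=
  quadratic_case h2 hq hs hn hc

end Pool.Agent.Results.MP_52e257_al.QuadraticCase
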